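import Pool.Agent.Helper75.ImpFull

set_option autoImplicit false

/-!
The theorem on complete chains for a linear order given by its order relation alone: every
subset has a least upper bound, and the maps are strictly monotone functions.
-/

namespace Pool.Agent.Helper75.OWN

universe u

/-- A linear order in which all subsets have a least upper bound is a complete linear order. -/
noncomputable abbrev mkComplete (C : Type u) [o : LinearOrder C]
    (h : ∀ S : Set C, ∃ a, IsLUB S a) : CompleteLinearOrder C :=
  letI b : BoundedOrder C :=
    { top := (h Set.univ).choose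
      le_top := fun _ => (h Set.univ).choose_spec.1 trivial
      bot := (h ∅).choose
      bot_le := fun x => (h ∅).choose_spec.2 (by simp) }
  letI l : BiheytingAlgebra C := LinearOrder.toBiheytingAlgebra C
  { l, o with
    sSup := fun S => (h S).choose
    isLUB_sSup := fun S => (h S).choose_spec
    sInf := fun S => (h (lowerBounds S)).choose
    isGLB_sInf := fun S => isLUB_lowerBounds.mp (h (lowerBounds S)).choose_spec
    le_total := o.le_total }

/-- In a linear order `C` with at least two elements in which every subset has a least upper
bound, there is a set such that neither it nor its complement contains the range of a strictly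
monotone map of `C` to itself. -/
theorem split (C : Type u) [o : LinearOrder C] (hC : ∀ S : Set C, ∃ a, IsLUB S a)
    (h2 : ∃ a b : C, a ≠ b) :
    ∃ A : Set C, ∀ f : C → C, StrictMono f → (∃ x, f x ∉ A) ∧ (∃ x, f x ∈ A) := by
  have : Nontrivial C := ⟨h2⟩
  let i : CompleteLinearOrder C := mkComplete C hC
  obtain ⟨A, B, hAB, hA, hB⟩ := Imp.full (C := C)
  refine ⟨A, fun f hf => ⟨?_, ?_⟩⟩
  · by_contra hcon
    push Not at hcon
    refine hA.false ⟨⟨fun x => ⟨f x, hcon x⟩, fun x y h => hf.injective (Subtype.mk.inj h)⟩, ?_⟩
    intro x y
    exact hf.le_iff_le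
  · by_contra hcon
    push Not at hcon
    have hB' : ∀ x, f x ∈ B := fun x =>
      ((hAB ▸ Set.mem_univ (f x) : f x ∈ A ∪ B)).resolve_left (hcon x)
    refine hB.false ⟨⟨fun x => ⟨f x, hB' x⟩, fun x y h => hf.injective (Subtype.mk.inj h)⟩, ?_⟩
    intro x y
    exact hf.le_iff_le

end Pool.Agent.Helper75.OWN
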