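import Pool.Agent.Helper47.HR.J2

set_option autoImplicit false

/-!
The counterexample to the Hermite ring conjecture, local form.  The two statements of this file
are those of the frozen proof, with the conjecture replaced by what is used of it: unimodular
rows of length three over the polynomial rings of the local rings of `k + f k[X,Y]`.
-/

namespace Pool.Agent.Helper75.OWN

open Polynomial Matrix Pool.Agent.Helper47.HR

variable {k : Type} [Field k]

theorem J1loc (h : ∀ (P : Ideal (AA k)) [P.IsPrime], P.IsMaximal →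
      ∀ V W : Fin 3 → (Localization.AtPrime P)[X], ∑ i, V i * W i = 1 →
        ∃ σ : Matrix (Fin 3) (Fin 3) (Localization.AtPrime P)[X], IsUnit σ.det ∧
          ∀ j, σ 2 j = V j)
    (v w : Fin 3 → Polynomial (Polynomial k))
    (hvw : ∑ i, v i * w i = 1)
    (hv : ∀ i, X * C X * (X - C X) ∣ v i - (if i = 2 then 1 else 0))
    (hw : ∀ i, X * C X * (X - C X) ∣ w i - (if i = 2 then 1 else 0)) :
    ∃ τ τ1 : Matrix (Fin 3) (Fin 3) (Polynomial (Polynomial k)), τ * τ1 = 1 ∧
      (∀ i j, ∃ c : k, X * C X * (X - C X) ∣ τ i j - C (C c)) ∧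
      (∀ i j, ∃ c : k, X * C X * (X - C X) ∣ τ1 i j - C (C c)) ∧
      (∀ j, τ 2 j = v j) := by
  have hmem : ∀ (u : Fin 3 → k[X][X]),
      (∀ i, X * C X * (X - C X) ∣ u i - (if i = 2 then 1 else 0)) → ∀ i, u i ∈ AA k := by
    intro u hu i
    refine ⟨if i = 2 then 1 else 0, ?_⟩
    convert hu i using 2
    split_ifs <;> simp
  have hvm := hmem v hv
  have hwm := hmem w hw
  choose V hV using fun i => exists_lift (hvm i)
  choose W hW using fun i => exists_lift (hwm i)
  have hinj : Function.Injective (Polynomial.map (AA k).subtype) :=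
    Polynomial.map_injective _ Subtype.val_injective
  have hVW : ∑ i, V i * W i = 1 := by
    apply hinj
    rw [Polynomial.map_sum, Polynomial.map_one]
    have : ∀ i ∈ Finset.univ, (V i * W i).map (AA k).subtype = th k (v i * w i) := by
      intro i _
      rw [Polynomial.map_mul, hV, hW, map_mul]
    rw [Finset.sum_congr rfl this, ← map_sum, hvw, map_one]
  obtain ⟨τA, hτu, hτA⟩ := patching V (by
    intro P hP hm
    apply h P hm
      (fun i => (V i).map (algebraMap (AA k) (Localization.AtPrime P)))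
      (fun i => (W i).map (algebraMap (AA k) (Localization.AtPrime P)))
    have := congrArg (Polynomial.map (algebraMap (AA k) (Localization.AtPrime P))) hVW
    rw [Polynomial.map_sum, Polynomial.map_one] at this
    simpa only [Polynomial.map_mul] using this)
  have hV0 : ∀ i, (V i).eval 0 = if i = 2 then 1 else 0 := by
    intro i
    apply Subtype.val_injective
    have h1 : ((V i).eval 0 : AA k) = (V i).coeff 0 := (coeff_zero_eq_eval_zero _).symm
    rw [h1]
    have h2 : ((V i).coeff 0 : k[X][X]) = (th k (v i)).coeff 0 := by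
      rw [← hV, coeff_map]
      rfl
    rw [h2, th_zero (c := if i = 2 then 1 else 0) (by split_ifs <;> simp) (hv i)]
    split_ifs <;> rfl
  have hV1 : ∀ i, (((V i).eval 1 : AA k) : k[X][X]) = v i := by
    intro i
    have h1 : (((V i).eval 1 : AA k) : k[X][X]) = ((V i).map (AA k).subtype).eval 1 := by
      rw [eval_map, eval₂_at_one]
      rfl
    rw [h1, hV, th_one]
  refine ⟨τA.map (AA k).subtype, (τA⁻¹).map (AA k).subtype, ?_, ?_, ?_, ?_⟩
  · rw [← Matrix.map_mul, mul_nonsing_inv _ hτu]
    ext i j : 2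
    by_cases hij : i = j
    · subst hij
      simp
    · simp [hij]
  · intro i j
    exact (τA i j).2
  · intro i j
    exact ((τA⁻¹) i j).2
  · intro j
    have h1 := hτA j
    rw [Fin.sum_univ_three, hV0, hV0, hV0] at h1
    simp only [Fin.isValue, Fin.reduceEq, if_false, if_true, zero_mul, zero_add, one_mul] at h1
    rw [map_apply, ← hV1 j, ← h1]
    rfl

theorem lift_of_loc [CharP k 2] (h : ∀ (P : Ideal (AA k)) [P.IsPrime], P.IsMaximal →
      ∀ V W : Fin 3 → (Localization.AtPrime P)[X], ∑ i, V i * W i = 1 →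
        ∃ σ : Matrix (Fin 3) (Fin 3) (Localization.AtPrime P)[X], IsUnit σ.det ∧
          ∀ j, σ 2 j = V j)
     (x y : k) :
    ∃ a : Matrix (Fin 2) (Fin 2) (Polynomial (Polynomial k)), a.det = 1 ∧
      a.map (evalRingHom 0) = 1 ∧ a.map (mapRingHom (evalRingHom 0)) = 1 ∧
      a.map (evalRingHom X) = alpha x y := by
  obtain ⟨β, hβdet, hβY, hβX, hβD⟩ := exists_beta x y
  set β1 := β.adjugate with hβ1
  have hββ1 : β * β1 = 1 := by rw [hβ1, mul_adjugate, hβdet, one_smul]
  have hβ1β : β1 * β = 1 := by rw [hβ1, adjugate_mul, hβdet, one_smul]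
  -- last column and last row of the specialisations
  have hcol : ∀ (φ : k[X][X] →+* k[X]), (∀ j, φ (β j 2) = if j = 2 then 1 else 0) →
      ∀ i, φ (β1 i 2) = if i = 2 then 1 else 0 := by
    intro φ hφ i
    have e1 := congrArg φ (congrFun (congrFun hβ1β i) 2)
    rw [mul_apply, Fin.sum_univ_three, map_add, map_add, map_mul, map_mul, map_mul, hφ, hφ,
      hφ] at e1
    simp only [Fin.isValue, Fin.reduceEq, if_false, if_true, mul_zero, zero_add, mul_one] at e1
    rw [one_col] at e1
    refine e1.trans ?_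
    split_ifs <;> simp
  have hY : ∀ i j, evalRingHom 0 (β i j) = (1 : Matrix (Fin 3) (Fin 3) k[X]) i j :=
    fun i j => congrFun (congrFun hβY i) j
  have hX : ∀ i j, mapRingHom (evalRingHom 0) (β i j) = (1 : Matrix (Fin 3) (Fin 3) k[X]) i j :=
    fun i j => congrFun (congrFun hβX i) j
  have hD : ∀ i j, evalRingHom X (β i j) = emb3 (alpha x y) i j :=
    fun i j => congrFun (congrFun hβD i) j
  have hdvd : ∀ (P : k[X][X]) (i : Fin 3), evalRingHom 0 P = (if i = 2 then 1 else 0) →
      mapRingHom (evalRingHom (0 : k)) P = (if i = 2 then 1 else 0) →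
      evalRingHom X P = (if i = 2 then 1 else 0) →
      X * C X * (X - C X) ∣ P - (if i = 2 then 1 else 0) := by
    intro P i e1 e2 e3
    apply dvd_f
    · rw [coe_evalRingHom] at e1
      rw [eval_sub, e1]
      split_ifs <;> simp
    · rw [map_sub, e2]
      split_ifs <;> simp
    · rw [coe_evalRingHom] at e3
      rw [eval_sub, e3]
      split_ifs <;> simp
  obtain ⟨τ, τ1, hττ1, hτc, hτ1c, hτ2⟩ := J1loc h (fun j => β 2 j) (fun i => β1 i 2)
    (by
      have := congrFun (congrFun hββ1 2) 2
      rw [mul_apply] at this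
      rw [this, one_apply_eq])
    (by
      intro i
      apply hdvd
      · rw [hY, one_row]
      · rw [hX, one_row]
      · rw [hD, emb_row])
    (by
      intro i
      apply hdvd
      · apply hcol
        intro j
        rw [hY, one_col]
      · apply hcol
        intro j
        rw [hX, one_col]
      · apply hcol
        intro j
        rw [hD, emb_col])
  choose c hc using hτc
  choose c1 hc1 using hτ1c
  have hτ1τ : τ1 * τ = 1 := mul_eq_one_comm.mp hττ1
  set ρ := β * τ1 with hρ
  have hρ2 : ∀ j, ρ 2 j = (1 : Matrix (Fin 3) (Fin 3) k[X][X]) 2 j := by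
    intro j
    rw [← hττ1, hρ, mul_apply, mul_apply]
    exact Finset.sum_congr rfl fun l _ => by rw [hτ2]
  -- specialisations
  have hspec : ∀ (φ : k[X][X] →+* k[X]), φ (X * C X * (X - C X)) = 0 →
      (∀ c : k, φ (C (C c)) = C c) → (∀ j, φ (β 2 j) = if j = 2 then 1 else 0) →
      ∀ (M : Matrix (Fin 2) (Fin 2) k[X]), (∀ i j, φ (β i j) = emb3 M i j) →
      ((!![ρ 0 0, ρ 0 1; ρ 1 0, ρ 1 1] : Matrix (Fin 2) (Fin 2) k[X][X]) *
        !![C (C (c 0 0)), C (C (c 0 1)); C (C (c 1 0)), C (C (c 1 1))]).map φ = M := by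
    intro φ hφf hφc hφ2 M hM
    have t1 : ∀ i j, φ (τ i j) = C (c i j) := by
      intro i j
      obtain ⟨q, hq⟩ := hc i j
      have e1 := congrArg φ hq
      rw [map_sub, map_mul, hφf, zero_mul, hφc, sub_eq_zero] at e1
      exact e1
    have t2 : ∀ i j, φ (τ1 i j) = C (c1 i j) := by
      intro i j
      obtain ⟨q, hq⟩ := hc1 i j
      have e1 := congrArg φ hq
      rw [map_sub, map_mul, hφf, zero_mul, hφc, sub_eq_zero] at e1
      exact e1
    have t3 : ∀ j, (C (c 2 j) : k[X]) = if j = 2 then 1 else 0 := by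
      intro j
      rw [← t1, hτ2, hφ2]
    have t4 : ∀ i j, ∑ l, (C (c1 i l) : k[X]) * C (c l j)
        = (1 : Matrix (Fin 3) (Fin 3) k[X]) i j := by
      intro i j
      have e1 := congrArg φ (congrFun (congrFun hτ1τ i) j)
      rw [mul_apply, map_sum] at e1
      simp only [map_mul, t1, t2] at e1
      rw [e1]
      by_cases hij : i = j
      · subst hij; simp
      · simp [hij]
    have t30 : (C (c 2 0) : k[X]) = 0 := by rw [t3]; simp
    have t31 : (C (c 2 1) : k[X]) = 0 := by rw [t3]; simp
    have e00 : (C (c1 0 0) : k[X]) * C (c 0 0) + C (c1 0 1) * C (c 1 0) = 1 := by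
      have := t4 0 0
      rw [Fin.sum_univ_three, t30, mul_zero, add_zero] at this
      rw [this]; simp
    have e01 : (C (c1 0 0) : k[X]) * C (c 0 1) + C (c1 0 1) * C (c 1 1) = 0 := by
      have := t4 0 1
      rw [Fin.sum_univ_three, t31, mul_zero, add_zero] at this
      rw [this]; simp
    have e10 : (C (c1 1 0) : k[X]) * C (c 0 0) + C (c1 1 1) * C (c 1 0) = 0 := by
      have := t4 1 0
      rw [Fin.sum_univ_three, t30, mul_zero, add_zero] at this
      rw [this]; simp
    have e11 : (C (c1 1 0) : k[X]) * C (c 0 1) + C (c1 1 1) * C (c 1 1) = 1 := by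
      have := t4 1 1
      rw [Fin.sum_univ_three, t31, mul_zero, add_zero] at this
      rw [this]; simp
    have r : ∀ i j, φ (ρ i j) = ∑ l, emb3 M i l * C (c1 l j) := by
      intro i j
      rw [hρ, mul_apply, map_sum]
      exact Finset.sum_congr rfl fun l _ => by rw [map_mul, hM, t2]
    have r' : ∀ (i : Fin 2) j, φ (ρ i.castSucc j) = M i 0 * C (c1 0 j) + M i 1 * C (c1 1 j) := by
      intro i j
      rw [r, Fin.sum_univ_three]
      fin_cases i <;> simp [emb3]
    have r0 := r' 0
    have r1 := r' 1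
    simp only [Fin.castSucc_zero, Fin.castSucc_one] at r0 r1
    refine Matrix.ext fun i j => ?_
    rw [map_apply, mul_apply, Fin.sum_univ_two, map_add, map_mul, map_mul]
    fin_cases i <;> fin_cases j
    · simp only [Fin.zero_eta, Fin.isValue, of_apply, cons_val', cons_val_zero, cons_val_fin_one,
        cons_val_one, r0, r1, hφc, Fin.mk_one]
      exact (lin1 _ _ e00 e10).trans (by simp)
    · simp only [Fin.zero_eta, Fin.isValue, of_apply, cons_val', cons_val_zero, cons_val_fin_one,
        cons_val_one, r0, r1, hφc, Fin.mk_one]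
      exact (lin1 _ _ e01 e11).trans (by simp)
    · simp only [Fin.zero_eta, Fin.isValue, of_apply, cons_val', cons_val_zero, cons_val_fin_one,
        cons_val_one, r0, r1, hφc, Fin.mk_one]
      exact (lin1 _ _ e00 e10).trans (by simp)
    · simp only [Fin.zero_eta, Fin.isValue, of_apply, cons_val', cons_val_zero, cons_val_fin_one,
        cons_val_one, r0, r1, hφc, Fin.mk_one]
      exact (lin1 _ _ e01 e11).trans (by simp)
  set a : Matrix (Fin 2) (Fin 2) k[X][X] := (!![ρ 0 0, ρ 0 1; ρ 1 0, ρ 1 1] :
    Matrix (Fin 2) (Fin 2) k[X][X]) *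
        !![C (C (c 0 0)), C (C (c 0 1)); C (C (c 1 0)), C (C (c 1 1))] with ha
  have sY : a.map (evalRingHom 0) = 1 := by
    apply hspec
    · simp
    · intro c; simp
    · intro j
      rw [hY, one_row]
    · intro i j
      rw [hY, one_emb]
  have sX : a.map (mapRingHom (evalRingHom 0)) = 1 := by
    apply hspec
    · simp
    · intro c; simp
    · intro j
      rw [hX, one_row]
    · intro i j
      rw [hX, one_emb]
  have sD : a.map (evalRingHom X) = alpha x y := by
    apply hspec
    · simp
    · intro c; simp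
    · intro j
      rw [hD, emb_row]
    · intro i j
      rw [hD]
  refine ⟨a, ?_, sY, sX, sD⟩
  -- determinant
  have hu : IsUnit a.det := by
    have h1 : IsUnit ρ.det := by
      rw [hρ, det_mul, hβdet, one_mul]
      exact IsUnit.of_mul_eq_one τ.det (by rw [← det_mul, hτ1τ, det_one])
    have hr0 : ρ 2 0 = 0 := by rw [hρ2]; simp
    have hr1 : ρ 2 1 = 0 := by rw [hρ2]; simp
    have hr2 : ρ 2 2 = 1 := by rw [hρ2]; simp
    have h2 : ρ.det = ρ 0 0 * ρ 1 1 - ρ 0 1 * ρ 1 0 := by
      rw [det_fin_three, hr0, hr1, hr2]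
      ring
    have h3 : (a.map (evalRingHom 0)).det = 1 := by rw [sY, det_one]
    have h4 : a.det = ρ.det * C (C (c 0 0 * c 1 1 - c 0 1 * c 1 0)) := by
      rw [ha, det_mul, det_fin_two_of, det_fin_two_of, h2]
      simp only [C_mul, C_sub]
    have h5 : c 0 0 * c 1 1 - c 0 1 * c 1 0 ≠ 0 := by
      intro h6
      rw [h6, C_0, C_0, mul_zero] at h4
      rw [← RingHom.mapMatrix_apply, ← RingHom.map_det, h4, map_zero] at h3
      exact zero_ne_one h3
    rw [h4]
    exact h1.mul ((isUnit_iff_ne_zero.mpr h5).map (C.comp C : k →+* k[X][X]))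
  obtain ⟨r, hr, hra⟩ := Polynomial.isUnit_iff.mp hu
  have h1 : r = 1 := by
    have h3 : (a.map (evalRingHom 0)).det = 1 := by rw [sY, det_one]
    rw [← RingHom.mapMatrix_apply, ← RingHom.map_det, ← hra] at h3
    simpa using h3
  rw [← hra, h1, C_1]

end Pool.Agent.Helper75.OWN
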