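import Pool.Agent.Helper75.OWN.HermDim
import Pool.Agent.Helper75.OWN.HermLift
import Pool.Agent.Helper47.HR.I

set_option autoImplicit false

/-!
Over every field of characteristic two there is a local domain of Krull dimension at most two
such that some unimodular row of length three over its polynomial ring is not completable.
-/

namespace Pool.Agent.Helper75.OWN

open Polynomial Matrix Pool.Agent.Helper47.HR

/-- fields with the additive map needed, over any field of characteristic two -/
theorem exists_field (K : Type) [Field K] [CharP K 2] :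
    ∃ (k : Type) (_ : Field k) (_ : CharP k 2) (_ : Algebra K k) (D : k →+ k) (x y : k),
    (∀ r z, D (r ^ 2 * z) = r ^ 2 * D z) ∧ D 1 = 0 ∧ D x = 0 ∧ D y = 0 ∧ D (x * y) = 1 := by
  let R := MvPolynomial (Fin 2) K
  let D0 : R →+ R :=
    ((MvPolynomial.pderiv 0 : Derivation K R R) : R →ₗ[K] R).toAddMonoidHom.comp
      ((MvPolynomial.pderiv 1 : Derivation K R R) : R →ₗ[K] R).toAddMonoidHom
  have hD0 : ∀ x, D0 x = MvPolynomial.pderiv 0 (MvPolynomial.pderiv 1 x) := fun x => rfl
  have h2 : (2 : R) = 0 := CharTwo.two_eq_zero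
  have hpd : ∀ (i : Fin 2) (r x : R), MvPolynomial.pderiv i (r ^ 2 * x) =
      r ^ 2 * MvPolynomial.pderiv i x := by
    intro i r x
    rw [Derivation.leibniz, Derivation.leibniz_pow]
    simp only [smul_eq_mul, nsmul_eq_mul]
    have : ((2 : ℕ) : R) = 0 := by exact_mod_cast h2
    rw [this]
    ring
  obtain ⟨D', h1, h3, -⟩ := ext_frac (K := FractionRing R) D0 (fun r x => by
    rw [hD0, hD0, hpd, hpd])
  refine ⟨FractionRing R, inferInstance, ?_, inferInstance, D',
    algebraMap R _ (MvPolynomial.X 0), algebraMap R _ (MvPolynomial.X 1), h1, ?_, ?_, ?_, ?_⟩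
  · exact IsFractionRing.charP_of_isFractionRing R 2
  · rw [← map_one (algebraMap R (FractionRing R)), h3, hD0]
    simp
  · rw [h3, hD0]
    simp [MvPolynomial.pderiv_X]
  · rw [h3, hD0]
    simp [MvPolynomial.pderiv_X]
  · rw [← map_mul, h3, hD0]
    simp [MvPolynomial.pderiv_X, Derivation.leibniz]

/-- modules which become free after adding a free module are free over a local ring -/
theorem free_of_local (R : Type) [CommRing R] [IsLocalRing R] (M : Type) [AddCommGroup M]
    [Module R M] (n m : ℕ) (e : (M × (Fin n → R)) ≃ₗ[R] (Fin m → R)) : Module.Free R M := by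
  have hfin : Module.Finite R (M × (Fin n → R)) := Module.Finite.equiv e.symm
  have hfin2 : Module.Finite R M :=
    Module.Finite.of_surjective (LinearMap.fst R M (Fin n → R)) LinearMap.fst_surjective
  have hproj : Module.Projective R (M × (Fin n → R)) := Module.Projective.of_equiv e.symm
  have hproj2 : Module.Projective R M :=
    Module.Projective.of_split (LinearMap.inl R M (Fin n → R))
      (LinearMap.fst R M (Fin n → R)) (by ext; simp)
  have hflat : Module.Flat R M := inferInstance
  exact Module.free_of_flat_of_isLocalRing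

/-- the inclusion of the ground field -/
noncomputable def incl (k : Type) [Field k] : k →+* AA k :=
  ((C : k[X] →+* k[X][X]).comp (C : k →+* k[X])).codRestrict (AA k) (fun e => ⟨e, by simp⟩)

theorem main (K : Type) [Field K] [CharP K 2] :
    ∃ (A : Type) (_ : CommRing A) (_ : Algebra K A), IsDomain A ∧ IsLocalRing A ∧
      ringKrullDim A ≤ 2 ∧
      (∀ (M : Type) [AddCommGroup M] [Module A M] (n m : ℕ),
        Nonempty ((M × (Fin n → A)) ≃ₗ[A] (Fin m → A)) → Module.Free A M) ∧
      ∃ v w : Fin 3 → A[X], ∑ i, v i * w i = 1 ∧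
        (¬ ∃ M : Matrix (Fin 3) (Fin 3) A[X], IsUnit M.det ∧ M 0 = v) ∧
        ∃ P : Submodule A[X] (Fin 3 → A[X]), (∀ u, u ∈ P ↔ ∑ i, v i * u i = 0) ∧
          Nonempty ((P × A[X]) ≃ₗ[A[X]] (Fin 3 → A[X])) ∧ ¬ Module.Free A[X] P := by
  by_contra hcon
  obtain ⟨k, _, _, _, D, x, y, hD, h1, hx, hy, hxy⟩ := exists_field K
  apply NL D hD x y h1 hx hy hxy
  apply lift_of_loc
  intro P _ hP V W hVW
  by_contra hno
  apply hcon
  have hdom : IsDomain (Localization.AtPrime P) :=
    IsLocalization.isDomain_localization (le_nonZeroDivisors_of_noZeroDivisors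
      (fun h => h P.zero_mem))
  refine ⟨Localization.AtPrime P, inferInstance,
    ((algebraMap (AA k) (Localization.AtPrime P)).comp ((incl k).comp (algebraMap K k))).toAlgebra,
    hdom, inferInstance, dim_loc k P, ?_, V, W, hVW, ?_, LinearMap.ker (rowFun V), ?_, ?_, ?_⟩
  · rintro M _ _ n m ⟨e⟩
    exact free_of_local _ M n m e
  · rintro ⟨M, hM, hMV⟩
    apply hno
    refine ⟨M.submatrix (Equiv.swap (0 : Fin 3) 2) id, ?_, ?_⟩
    · have h5 : (M.submatrix (Equiv.swap (0 : Fin 3) 2) id).det =
          Equiv.Perm.sign (Equiv.swap (0 : Fin 3) 2) * M.det := det_permute _ _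
      rw [h5]
      refine IsUnit.mul ?_ hM
      rw [Equiv.Perm.sign_swap (by decide)]
      simp only [Units.val_neg, Units.val_one, Int.cast_neg, Int.cast_one]
      exact (isUnit_one (M := (Localization.AtPrime P)[X])).neg
    · intro j
      rw [submatrix_apply, Equiv.swap_apply_right, ← hMV]
      rfl
  · intro u
    exact Iff.rfl
  · exact ⟨((LinearEquiv.refl _ _).prodCongr (LinearEquiv.funUnique (Fin 1) _ _).symm).trans
      (kerEquiv V W hVW)⟩
  · intro hfree
    exact hno (free_ker_completes V W hVW hfree)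

end Pool.Agent.Helper75.OWN
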