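import Pool.Agent.Helper47.HR.J1

set_option autoImplicit false

/-!
The Krull dimension of the rings `k + f B`, for `B` of Krull dimension two, is at most two.
-/

namespace Pool.Agent.Helper75.OWN

open Polynomial

section Dim

variable {B : Type*} [CommRing B] (A : Subring B) (f : B) (hf : ∀ b, f * b ∈ A)

/-- the element `f b` of the subring -/
def fm (b : B) : A := ⟨f * b, hf b⟩

/-- The ideal of the big ring attached to an ideal of the subring. -/
def qq (p : Ideal A) : Ideal B where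
  carrier := {b | ∀ c : B, fm A f hf (c * b) ∈ p}
  add_mem' := by
    intro a b ha hb c
    have : fm A f hf (c * (a + b)) = fm A f hf (c * a) + fm A f hf (c * b) := by
      apply Subtype.ext
      simp only [fm, Subring.coe_add]
      ring
    rw [this]
    exact p.add_mem (ha c) (hb c)
  zero_mem' := by
    intro c
    have : fm A f hf (c * 0) = 0 := by
      apply Subtype.ext
      simp [fm]
    rw [this]
    exact p.zero_mem
  smul_mem' := by
    intro r b hb c
    have : fm A f hf (c * (r • b)) = fm A f hf ((c * r) * b) := by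
      apply Subtype.ext
      simp only [fm, smul_eq_mul]
      ring
    rw [this]
    exact hb (c * r)

variable {A f hf}

theorem mem_qq {p : Ideal A} {b : B} : b ∈ qq A f hf p ↔ ∀ c : B, fm A f hf (c * b) ∈ p :=
  Iff.rfl

theorem fm_mul (b c : B) : fm A f hf b * fm A f hf c = fm A f hf (f * (b * c)) := by
  apply Subtype.ext
  simp only [fm, Subring.coe_mul]
  ring

theorem fm_mul_coe (b : B) (a : A) : fm A f hf b * a = fm A f hf (b * a) := by
  apply Subtype.ext
  simp only [fm, Subring.coe_mul]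
  ring

theorem qq_mono {p p' : Ideal A} (h : p ≤ p') : qq A f hf p ≤ qq A f hf p' :=
  fun _ hb c => h (hb c)

theorem coe_mem_qq {p : Ideal A} [p.IsPrime] {b0 : B} (hb0 : fm A f hf b0 ∉ p) (a : A) :
    (a : B) ∈ qq A f hf p ↔ a ∈ p := by
  constructor
  · intro h
    have h1 := h b0
    rw [← fm_mul_coe] at h1
    exact (‹p.IsPrime›.mem_or_mem h1).resolve_left hb0
  · intro h c
    rw [← fm_mul_coe]
    exact p.mul_mem_left _ h

theorem qq_prime {p : Ideal A} [hp : p.IsPrime] {b0 : B} (hb0 : fm A f hf b0 ∉ p) :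
    (qq A f hf p).IsPrime := by
  constructor
  · intro h
    have h1 : (1 : B) ∈ qq A f hf p := by rw [h]; trivial
    have h2 := h1 b0
    rw [mul_one] at h2
    exact hb0 h2
  · intro b b' hbb
    by_contra hcon
    push Not at hcon
    obtain ⟨h1, h2⟩ := hcon
    rw [mem_qq] at h1 h2
    push Not at h1 h2
    obtain ⟨c, hc⟩ := h1
    obtain ⟨c', hc'⟩ := h2
    have h3 : fm A f hf (c * b) * fm A f hf (c' * b') = fm A f hf (f * (c * c') * (b * b')) := by
      rw [fm_mul]
      congr 1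
      ring
    have h4 := hbb (f * (c * c'))
    rw [← h3] at h4
    rcases hp.mem_or_mem h4 with h | h
    · exact hc h
    · exact hc' h

theorem f_not_mem {p : Ideal A} [hp : p.IsPrime] {b0 : B} (hb0 : fm A f hf b0 ∉ p) :
    f ∉ qq A f hf p := by
  intro h
  have h1 := h (b0 * b0)
  have h2 : fm A f hf (b0 * b0 * f) = fm A f hf b0 * fm A f hf b0 := by
    rw [fm_mul]
    congr 1
    ring
  rw [h2] at h1
  exact hb0 (by simpa using hp.mem_or_mem h1)

theorem no_chain (hB : ringKrullDim B ≤ 2) (a b c d : PrimeSpectrum B) (h1 : a < b)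
    (h2 : b < c) (h3 : c < d) : False := by
  have hs : StrictMono ![a, b, c, d] := by
    rw [Fin.strictMono_iff_lt_succ]
    intro i
    fin_cases i
    · exact h1
    · exact h2
    · exact h3
  have h4 := Order.LTSeries.length_le_krullDim (LTSeries.mk 3 ![a, b, c, d] hs)
  have h5 : ((3 : ℕ) : WithBot ℕ∞) ≤ 2 := le_trans h4 hB
  have h6 : ¬ ((3 : ℕ) : WithBot ℕ∞) ≤ ((2 : ℕ) : WithBot ℕ∞) := by
    rw [Nat.cast_le]
    omega
  exact h6 h5

theorem dim_le (hB : ringKrullDim B ≤ 2)
    (hA : ∀ a : A, (∃ b, a = fm A f hf b) ∨ ∃ u : A, ∃ b, IsUnit u ∧ a = u + fm A f hf b) :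
    ringKrullDim A ≤ 2 := by
  refine iSup_le fun l => ?_
  by_contra hcon
  have hl : 3 ≤ l.length := by
    by_contra h
    apply hcon
    have h2 : l.length ≤ 2 := by omega
    exact_mod_cast h2
  obtain ⟨s, hs⟩ : ∃ s : Fin 4 → PrimeSpectrum A, StrictMono s :=
    ⟨fun i => l.toFun (Fin.castLE (by omega) i), fun i j hij => l.strictMono (by
      simpa using hij)⟩
  have h01 : s 0 < s 1 := hs (by decide)
  have h12 : s 1 < s 2 := hs (by decide)
  have h23 : s 2 < s 3 := hs (by decide)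
  -- the conductor is not contained in the third prime
  obtain ⟨b2, hb2⟩ : ∃ b, fm A f hf b ∉ (s 2).asIdeal := by
    by_contra hc
    push Not at hc
    obtain ⟨a, ha3, ha2⟩ := Set.exists_of_ssubset (show ((s 2).asIdeal : Set A) ⊂ (s 3).asIdeal
      from h23)
    rcases hA a with ⟨b, rfl⟩ | ⟨u, b, hu, rfl⟩
    · exact ha2 (hc b)
    · have h : u ∈ (s 3).asIdeal := by
        have h4 : fm A f hf b ∈ (s 3).asIdeal := h23.le (hc b)
        have h5 := (s 3).asIdeal.sub_mem ha3 h4
        rwa [add_sub_cancel_right] at h5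
      exact (s 3).2.ne_top (Ideal.eq_top_of_isUnit_mem _ h hu)
  have hb1 : fm A f hf b2 ∉ (s 1).asIdeal := fun h => hb2 (h12.le h)
  have hb0 : fm A f hf b2 ∉ (s 0).asIdeal := fun h => hb1 (h01.le h)
  have lt_of : ∀ {p p' : PrimeSpectrum A} {b : B} (hp : fm A f hf b ∉ p.asIdeal)
      (hp' : fm A f hf b ∉ p'.asIdeal), p < p' →
      (⟨qq A f hf p.asIdeal, qq_prime hp⟩ : PrimeSpectrum B) <
        ⟨qq A f hf p'.asIdeal, qq_prime hp'⟩ := by
    intro p p' b hp hp' hlt
    refine lt_of_le_of_ne (qq_mono hlt.le) ?_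
    intro heq
    have h1 : qq A f hf p.asIdeal = qq A f hf p'.asIdeal := congrArg PrimeSpectrum.asIdeal heq
    apply hlt.ne
    apply PrimeSpectrum.ext
    ext a
    rw [← coe_mem_qq hp a, ← coe_mem_qq hp' a, h1]
  set q0 : PrimeSpectrum B := ⟨qq A f hf (s 0).asIdeal, qq_prime hb0⟩ with hq0
  set q1 : PrimeSpectrum B := ⟨qq A f hf (s 1).asIdeal, qq_prime hb1⟩ with hq1
  set q2 : PrimeSpectrum B := ⟨qq A f hf (s 2).asIdeal, qq_prime hb2⟩ with hq2
  have l01 : q0 < q1 := lt_of hb0 hb1 h01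
  have l12 : q1 < q2 := lt_of hb1 hb2 h12
  obtain ⟨Q, hQ, hq2Q⟩ := Ideal.exists_le_maximal q2.asIdeal q2.2.ne_top
  have hQ2 : q2.asIdeal = Q := by
    by_contra hne
    exact no_chain hB q0 q1 q2 ⟨Q, hQ.isPrime⟩ l01 l12 (lt_of_le_of_ne hq2Q (fun h =>
      hne (congrArg PrimeSpectrum.asIdeal h)))
  have hmax : q2.asIdeal.IsMaximal := hQ2 ▸ hQ
  have hf2 : f ∉ q2.asIdeal := f_not_mem hb2
  obtain ⟨y, hy⟩ := hmax.exists_inv hf2
  obtain ⟨m, hm, hmy⟩ := hy
  -- `m = 1 - f y`
  have hm2 : (1 - fm A f hf y : A) ∈ (s 2).asIdeal := by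
    rw [← coe_mem_qq hb2]
    have : ((1 - fm A f hf y : A) : B) = m := by
      have h6 : ((1 - fm A f hf y : A) : B) = 1 - f * y := rfl
      rw [h6]
      linear_combination -hmy
    rw [this]
    exact hm
  by_cases hc : ∀ b, fm A f hf b ∈ (s 3).asIdeal
  · have h4 := (s 3).asIdeal.add_mem (h23.le hm2) (hc y)
    rw [sub_add_cancel] at h4
    exact (s 3).2.ne_top ((Ideal.eq_top_iff_one _).2 h4)
  · push Not at hc
    obtain ⟨b3, hb3⟩ := hc
    have hb23 : fm A f hf b3 ∉ (s 2).asIdeal := fun h => hb3 (h23.le h)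
    exact no_chain hB q0 q1 q2 ⟨qq A f hf (s 3).asIdeal, qq_prime hb3⟩ l01 l12
      (lt_of hb23 hb3 h23)

end Dim

open Pool.Agent.Helper47.HR

theorem dim_AA (k : Type) [Field k] : ringKrullDim (AA k) ≤ 2 := by
  have hf : ∀ b : k[X][X], X * C X * (X - C X) * b ∈ AA k := fun b => ⟨0, by simp⟩
  apply dim_le (f := X * C X * (X - C X)) (hf := hf)
  · rw [Polynomial.ringKrullDim_of_isNoetherianRing, Polynomial.ringKrullDim_of_isNoetherianRing,
      ringKrullDim_eq_zero_of_field]
    norm_num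
  · intro a
    obtain ⟨c, q, hq⟩ := a.2
    by_cases hc : c = 0
    · left
      refine ⟨q, Subtype.ext ?_⟩
      subst hc
      simp only [fm]
      rw [← hq]
      simp
    · right
      have hmem : ∀ e : k, (C (C e) : k[X][X]) ∈ AA k := fun e => ⟨e, by simp⟩
      refine ⟨⟨C (C c), hmem c⟩, q, ?_, Subtype.ext ?_⟩
      · refine IsUnit.of_mul_eq_one ⟨C (C c⁻¹), hmem _⟩ (Subtype.ext ?_)
        show (C (C c) : k[X][X]) * C (C c⁻¹) = 1
        rw [← C_mul, ← C_mul, mul_inv_cancel₀ hc, C_1, C_1]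
      · simp only [fm, Subring.coe_add]
        rw [← hq]
        ring

/-- the local rings have Krull dimension at most two -/
theorem dim_loc (k : Type) [Field k] (P : Ideal (AA k)) [P.IsPrime] :
    ringKrullDim (Localization.AtPrime P) ≤ 2 := by
  rw [IsLocalization.AtPrime.ringKrullDim_eq_height P]
  exact (Ideal.height_le_ringKrullDim_of_ne_top ‹P.IsPrime›.ne_top).trans (dim_AA k)

end Pool.Agent.Helper75.OWN
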